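import Pool.Agent.helper83.UT.Fin

/-!
# Symbols on products of three elliptic curves

Condition (b) of the problem for `l = 2` and `X = E₁ × E₂ × E₃`: in `K_3^M(F(X))/2 = H³(F(X), μ_2^{⊗2})` the products of
three classes from `H¹` of the factors vanish. All definitions (`Sy3`, `Pt`, `Shift`, `gen`) are in
`Pool.Agent.helper83.UT.Defs`.
-/

set_option autoImplicit false

universe u

namespace Pool.Agent.Results.MP_c1e8d0_ag.ProductSymbols

open Pool.Agent.helper83.UT

lemma units_sq {K : Type u} [Field K] (h : IsSquare (-1 : K)) : IsSquare (-1 : Kˣ) := by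
  obtain ⟨i, hi⟩ := h
  have h0 : i ≠ 0 := by
    rintro rfl
    simp at hi
  refine ⟨Units.mk0 i h0, ?_⟩
  apply Units.ext
  simpa using hi

/-- (A) the relation for the curves `E₁ : y² = x(x-pq)(x-rs)`, `E₂ : y² = x(x-qs)(x-pr)`, `E₃ : y² = x(x-ps)(x-qr)`,
`p + q + r + s = 0`; (B) the vanishing of all products if `P`, `Q`, `R` have shifts which have shifts;
(C) characteristic 13. -/
theorem result :
    (∀ (K : Type u) [Field K] (p q r s b₁ c₁ b₂ c₂ b₃ c₃ : K), Par p q r s → b₁ = p * q → c₁ = r * s →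
      b₂ = q * s → c₂ = p * r → b₃ = p * s → c₃ = q * r →
      ∀ (M : Type u) [AddCommGroup M] (S : Kˣ → Kˣ → Kˣ → M), Sy3 S →
      ∀ (P : Pt K b₁ c₁) (Q : Pt K b₂ c₂) (R : Pt K b₃ c₃),
        Relation S P Q R ∧ (Orb P → Orb Q → Orb R → Vanish S (vals P ∪ vals Q ∪ vals R))) ∧
    (∀ (K : Type u) [Field K] [CharP K 13], IsSquare (2 : K) →
      ∀ (M : Type u) [AddCommGroup M] (S : Kˣ → Kˣ → Kˣ → M), Sy3 S →
        Vanish S {z : Kˣ | ∃ P : Pt K 1 (-3), z ∈ vals P}) := by
  refine ⟨?_, ?_⟩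
  · intro K _ p q r s b₁ c₁ b₂ c₂ b₃ c₃ hpar e1 e2 e3' e4 e5 e6 M _ S hS
    subst e1 e2 e3' e4 e5 e6
    obtain ⟨hsum, hne, he0, h1, hp, hq, hr, hs, he⟩ := hpar
    have hp0 : p ≠ 0 := by
      rintro rfl
      apply hne
      ring
    have hq0 : q ≠ 0 := by
      rintro rfl
      apply hne
      ring
    have hr0 : r ≠ 0 := by
      rintro rfl
      apply hne
      ring
    have hs0 : s ≠ 0 := by
      rintro rfl
      apply hne
      ring
    have e3 : (p + q) * (p + r) * (p + s) = p * q * r + p * q * s + p * r * s + q * r * s := by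
      linear_combination (p ^ 2) * hsum
    rw [e3] at he he0
    have tau : ∀ (P : Pt K (p * q) (r * s)) (Q : Pt K (q * s) (p * r)) (R : Pt K (p * s) (q * r)),
        S P.c Q.a R.a + S P.a Q.c R.a + S P.a Q.a R.c = 0 := fun P Q R =>
      hS.tau (units_sq h1) p q r s hsum hp hq hr hs he hp0 hq0 hr0 hs0 he0 P Q R
    intro P Q R
    refine ⟨tau P Q R, ?_⟩
    rintro ⟨P', P'', a1, a2⟩ ⟨Q', Q'', b1, b2⟩ ⟨R', R'', c1, c2⟩ u hu v hv w hw
    exact hS.all (units_sq h1) (hp.mul hq) (hq.mul hs) (hp.mul hs) (mul_ne_zero hp0 hq0) (mul_ne_zero hq0 hs0)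
      (mul_ne_zero hp0 hs0) tau a1 a2 b1 b2 c1 c2 u v w hu hv hw
  · intro K _ _ h2 M _ S hS
    have h13 : (13 : K) = 0 := by exact_mod_cast CharP.cast_eq_zero K 13
    have h20 : (2 : K) ≠ 0 := by
      intro h
      have : (1 : K) = 0 := by linear_combination h13 - 6 * h
      exact one_ne_zero this
    have h30 : (3 : K) ≠ 0 := by
      intro h
      have : (1 : K) = 0 := by linear_combination h13 - 4 * h
      exact one_ne_zero this
    have h1 : IsSquare (-1 : K) := ⟨5, by linear_combination (-2) * h13⟩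
    have h3 : IsSquare (3 : K) := ⟨4, by linear_combination (-1) * h13⟩
    have hset : {z : Kˣ | ∃ P : Pt K 1 (-3), z ∈ vals P} = {z : Kˣ | ∃ P : Pt K 1 (-3), ∃ e, z = P.f e} := by
      ext z
      constructor
      · rintro ⟨P, e, he⟩
        exact ⟨P, e, he.symm⟩
      · rintro ⟨P, e, he⟩
        exact ⟨P, e, he.symm⟩
    rw [hset]
    intro u hu v hv w hw
    exact hS.one (units_sq h1) (fun P Q R => hS.tau3 (units_sq h1) h1 h2 h3 h20 h30 P Q R)
      (fun P => ⟨sh13 P, sh13_shift P⟩) u v w hu hv hw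

end Pool.Agent.Results.MP_c1e8d0_ag.ProductSymbols
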